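import Pool.Agent.Q181.TG.Stm4

set_option autoImplicit false

namespace Pool.Agent.Q96.TG

open Pool.Agent.Q181.TG Matrix

section

variable {α β B : Type} (r' : β → B)

/-- restriction to a fibre -/
def res (b : B) : (β → ℤ) →ₗ[ℤ] ({x // r' x = b} → ℤ) := LinearMap.funLeft ℤ ℤ (fun x => x.1)

/-- extension by zero -/
def ex [DecidableEq B] (b : B) : ({x // r' x = b} → ℤ) →ₗ[ℤ] (β → ℤ) where
  toFun g x := if h : r' x = b then g ⟨x, h⟩ else 0
  map_add' g g' := by
    ext x
    by_cases h : r' x = b <;> simp [h]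
  map_smul' c g := by
    ext x
    by_cases h : r' x = b <;> simp [h]

theorem sum_ex [Fintype B] [DecidableEq B] (g : β → ℤ) : ∑ b, ex r' b (res r' b g) = g := by
  ext x
  rw [Finset.sum_apply, Finset.sum_eq_single (r' x)]
  · simp [ex, res, LinearMap.funLeft]
  · intro b _ hb
    simp [ex, Ne.symm hb]
  · simp

/-- the map onto the product of the cokernels of the blocks -/
def phi (M : Matrix α β ℤ) (r : α → B) :
    (β → ℤ) →ₗ[ℤ] ∀ b, Cok (M.submatrix (fun a : {a // r a = b} => a.1)
      (fun x : {x // r' x = b} => x.1)) :=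
  LinearMap.pi fun b => (Submodule.mkQ _).comp (res r' b)

theorem phi_surj (M : Matrix α β ℤ) (r : α → B) : Function.Surjective (phi r' M r) := by
  intro y
  choose g hg using fun b => Submodule.Quotient.mk_surjective _ (y b)
  refine ⟨fun x => g (r' x) ⟨x, rfl⟩, ?_⟩
  ext1 b
  rw [← hg b]
  change Submodule.Quotient.mk _ = _
  congr 1
  ext ⟨x, hx⟩
  subst hx
  rfl

theorem ker_phi [Fintype B] [DecidableEq B] (M : Matrix α β ℤ) (r : α → B)
    (h : ∀ a b, M a b ≠ 0 → r a = r' b) :
    LinearMap.ker (phi r' M r) = Submodule.span ℤ (Set.range M) := by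
  apply le_antisymm
  · intro g hg
    rw [LinearMap.mem_ker] at hg
    rw [← sum_ex r' g]
    refine Submodule.sum_mem _ fun b _ => ?_
    have h1 : res r' b g ∈ Submodule.span ℤ (Set.range (M.submatrix
        (fun a : {a // r a = b} => a.1) (fun x : {x // r' x = b} => x.1))) := by
      have := congrFun hg b
      exact (Submodule.Quotient.mk_eq_zero _).1 this
    have h2 : Submodule.map (ex r' b) (Submodule.span ℤ (Set.range (M.submatrix
        (fun a : {a // r a = b} => a.1) (fun x : {x // r' x = b} => x.1)))) ≤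
        Submodule.span ℤ (Set.range M) := by
      rw [Submodule.map_span, Submodule.span_le]
      rintro _ ⟨_, ⟨⟨a, ha⟩, rfl⟩, rfl⟩
      refine Submodule.subset_span ⟨a, ?_⟩
      ext x
      by_cases hx : r' x = b
      · simp [ex, hx]
      · have : M a x = 0 := by
          by_contra h0
          exact hx ((h a x h0).symm.trans ha)
        simp [ex, hx, this]
    exact h2 (Submodule.mem_map_of_mem h1)
  · rw [Submodule.span_le]
    rintro _ ⟨a, rfl⟩
    change phi r' M r (M a) = 0
    ext1 b
    change Submodule.Quotient.mk (res r' b (M a)) = 0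
    rw [Submodule.Quotient.mk_eq_zero]
    by_cases ha : r a = b
    · exact Submodule.subset_span ⟨⟨a, ha⟩, rfl⟩
    · have : res r' b (M a) = 0 := by
        ext ⟨x, hx⟩
        by_contra h0
        exact ha ((h a x h0).trans hx)
      rw [this]
      exact Submodule.zero_mem _

end

theorem t_blk : S_tc → S_blk := by
  intro htc α β B _ _ _ M r r' h
  obtain ⟨h1, -, -, -, h5, -⟩ := htc
  rw [← h5]
  refine h1 _ _ ⟨?_⟩
  have e1 := (Submodule.quotEquivOfEq _ _ (ker_phi r' M r h).symm)
  have e2 := LinearMap.quotKerEquivOfSurjective (phi r' M r) (phi_surj r' M r)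
  exact (e1.trans e2).toAddEquiv

theorem t_fin : S_tc → S_blk → S_fin := by
  intro htc hblk X I J _ _ _ D M hM
  obtain ⟨-, -, -, -, -, h6⟩ := htc
  have h1 : ∀ (p : X × I) (q : X × J), M p q ≠ 0 → p.1 = q.1 := by
    rintro ⟨x, i⟩ ⟨y, j⟩ h
    rw [hM] at h
    by_contra hne
    exact h (if_neg (fun e => hne e.symm))
  let e : ∀ (K : Type) (x : X), {p : X × K // p.1 = x} ≃ K := fun K x =>
      { toFun := fun p => p.1.2
        invFun := fun k => ⟨(x, k), rfl⟩
        left_inv := by rintro ⟨⟨y, k⟩, rfl⟩; rfl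
        right_inv := fun k => rfl }
  have h2 : ∀ x : X, tc (Cok (M.submatrix (fun a : {a : X × I // a.1 = x} => a.1)
      (fun b : {b : X × J // b.1 = x} => b.1))) = tc (Cok D) := by
    intro x
    have h3 : M.submatrix (fun a : {a : X × I // a.1 = x} => a.1)
        (fun b : {b : X × J // b.1 = x} => b.1) = D.submatrix (e I x) (e J x) := by
      ext ⟨⟨y, i⟩, hy⟩ ⟨⟨z, j⟩, hz⟩
      simp only at hy hz
      subst hy
      subst hz
      simp [hM, e]
    rw [h3, h6]
  rw [hblk (X × I) (X × J) X M Prod.fst Prod.fst h1, Finset.prod_congr rfl (fun x _ => h2 x),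
    Finset.prod_const, Finset.card_univ]

end Pool.Agent.Q96.TG
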