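import Pool.Agent.Q96.TG.TC

set_option autoImplicit false

namespace Pool.Agent.Q96.TG

open Pool.Agent.Q181.TG Matrix

theorem card_ker_range {A B : Type} [AddCommGroup A] [AddCommGroup B] (g : A →+ B) :
    Nat.card g.ker * Nat.card g.range = Nat.card A := by
  rw [← AddSubgroup.index_ker, AddSubgroup.card_mul_index]

section

variable {E : Type} [AddCommGroup E] (R : AddSubgroup E)

/-- the reduced subgroup -/
abbrev Rb : AddSubgroup (E ⧸ AddCommGroup.torsion E) :=
  R.map (QuotientAddGroup.mk' (AddCommGroup.torsion E))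

/-- the natural map -/
def pr : E ⧸ R →+ (E ⧸ AddCommGroup.torsion E) ⧸ Rb R :=
  QuotientAddGroup.map R (Rb R) (QuotientAddGroup.mk' (AddCommGroup.torsion E))
    (AddSubgroup.le_comap_map _ _)

theorem pr_mk (e : E) : pr R (QuotientAddGroup.mk e) =
    QuotientAddGroup.mk (QuotientAddGroup.mk e) := rfl

theorem pr_zero_iff (e : E) : pr R (QuotientAddGroup.mk e) = 0 ↔
    ∃ r ∈ R, e - r ∈ AddCommGroup.torsion E := by
  rw [pr_mk, QuotientAddGroup.eq_zero_iff, AddSubgroup.mem_map]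
  refine exists_congr fun r => and_congr_right fun _ => ?_
  rw [QuotientAddGroup.mk'_apply, QuotientAddGroup.eq, neg_add_eq_sub]

/-- restriction to the torsion subgroups -/
def g2 : AddCommGroup.torsion (E ⧸ R) →+
    AddCommGroup.torsion ((E ⧸ AddCommGroup.torsion E) ⧸ Rb R) :=
  ((pr R).comp (AddCommGroup.torsion (E ⧸ R)).subtype).codRestrict _ (by
    rintro ⟨x, hx⟩
    exact AddCommGroup.le_comap_torsion (pr R) hx)

/-- the map from the torsion subgroup of `E` -/
def g1 : AddCommGroup.torsion E →+ E ⧸ R :=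
  (QuotientAddGroup.mk' R).comp (AddCommGroup.torsion E).subtype

theorem g2_surj : Function.Surjective (g2 R) := by
  rintro ⟨y, hy⟩
  obtain ⟨y', rfl⟩ := QuotientAddGroup.mk_surjective y
  obtain ⟨e, rfl⟩ := QuotientAddGroup.mk_surjective y'
  rw [tor_iff] at hy
  obtain ⟨n, hn, h⟩ := hy
  have h1 : pr R (QuotientAddGroup.mk (n • e)) = 0 := by
    rw [pr_mk]
    exact h
  rw [pr_zero_iff] at h1
  obtain ⟨r, hr, h2⟩ := h1
  rw [tor_iff] at h2
  obtain ⟨k, hk, h3⟩ := h2
  have h4 : (k * n) • (QuotientAddGroup.mk e : E ⧸ R) = 0 := by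
    rw [← QuotientAddGroup.mk_nsmul, QuotientAddGroup.eq_zero_iff]
    have : (k * n) • e = k • r := by
      rw [smul_sub, sub_eq_zero] at h3
      rw [mul_smul, h3]
    rw [this]
    exact R.nsmul_mem hr k
  refine ⟨⟨QuotientAddGroup.mk e, ?_⟩, ?_⟩
  · rw [tor_iff]
    exact ⟨k * n, Nat.mul_pos hk hn, h4⟩
  · exact Subtype.ext rfl

theorem ker_g2 : Nat.card (g2 R).ker = Nat.card (g1 R).range := by
  refine Nat.card_congr ?_
  refine Equiv.ofBijective
    (fun x => ⟨x.1.1, ?_⟩) ⟨?_, ?_⟩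
  · obtain ⟨⟨x, hx⟩, hx2⟩ := x
    have h1 : pr R x = 0 := congrArg Subtype.val ((g2 R).mem_ker.1 hx2)
    obtain ⟨e, rfl⟩ := QuotientAddGroup.mk_surjective x
    rw [pr_zero_iff] at h1
    obtain ⟨r, hr, h2⟩ := h1
    refine ⟨⟨e - r, h2⟩, ?_⟩
    change (QuotientAddGroup.mk (e - r) : E ⧸ R) = QuotientAddGroup.mk e
    rw [QuotientAddGroup.eq]
    simpa using hr
  · rintro ⟨⟨x, hx⟩, hx2⟩ ⟨⟨y, hy⟩, hy2⟩ h
    have : x = y := congrArg Subtype.val h
    subst this
    rfl
  · rintro ⟨_, ⟨⟨t, ht⟩, rfl⟩⟩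
    have h1 : (QuotientAddGroup.mk t : E ⧸ R) ∈ AddCommGroup.torsion (E ⧸ R) :=
      AddCommGroup.le_comap_torsion (QuotientAddGroup.mk' R) ht
    refine ⟨⟨⟨QuotientAddGroup.mk t, h1⟩, ?_⟩, ?_⟩
    · rw [AddMonoidHom.mem_ker]
      apply Subtype.ext
      change pr R (QuotientAddGroup.mk t) = 0
      rw [pr_zero_iff]
      exact ⟨0, R.zero_mem, by simpa using ht⟩
    · rfl

theorem ker_g1 : Nat.card (g1 R).ker =
    Nat.card (R ⊓ AddCommGroup.torsion E : AddSubgroup E) := by
  refine Nat.card_congr ?_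
  refine Equiv.ofBijective (fun x => ⟨x.1.1, ?_⟩) ⟨?_, ?_⟩
  · obtain ⟨⟨x, hx⟩, hx2⟩ := x
    rw [AddMonoidHom.mem_ker] at hx2
    have : (QuotientAddGroup.mk x : E ⧸ R) = 0 := hx2
    rw [QuotientAddGroup.eq_zero_iff] at this
    exact ⟨this, hx⟩
  · rintro ⟨⟨x, hx⟩, hx2⟩ ⟨⟨y, hy⟩, hy2⟩ h
    have : x = y := congrArg Subtype.val h
    subst this
    rfl
  · rintro ⟨x, hx1, hx2⟩
    refine ⟨⟨⟨x, hx2⟩, ?_⟩, rfl⟩
    rw [AddMonoidHom.mem_ker]
    change (QuotientAddGroup.mk x : E ⧸ R) = 0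
    rw [QuotientAddGroup.eq_zero_iff]
    exact hx1

theorem ext_aux : tc (E ⧸ R) * Nat.card (R ⊓ AddCommGroup.torsion E : AddSubgroup E) =
    tc E * tc ((E ⧸ AddCommGroup.torsion E) ⧸ Rb R) := by
  have h1 := card_ker_range (g1 R)
  have h2 := card_ker_range (g2 R)
  rw [ker_g1] at h1
  rw [ker_g2, AddMonoidHom.range_eq_top.2 (g2_surj R)] at h2
  have h3 : Nat.card (⊤ : AddSubgroup (AddCommGroup.torsion
      ((E ⧸ AddCommGroup.torsion E) ⧸ Rb R))) =
      tc ((E ⧸ AddCommGroup.torsion E) ⧸ Rb R) := AddSubgroup.card_top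
  rw [h3] at h2
  unfold tc at *
  rw [← h1, ← h2]
  ring

end

theorem t_ext : S_ext := fun _ _ _ R => ext_aux R

section

variable (E : Type) [AddCommGroup E] (B : Type)

/-- reduction of functions modulo the torsion -/
def redf : (B → E) →+ (B → E ⧸ AddCommGroup.torsion E) :=
  (QuotientAddGroup.mk' (AddCommGroup.torsion E)).compLeft B

theorem redf_surj : Function.Surjective (redf E B) := by
  intro y
  choose g hg using fun b => QuotientAddGroup.mk_surjective (y b)
  exact ⟨g, funext hg⟩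

theorem ker_redf [Fintype B] : (redf E B).ker = AddCommGroup.torsion (B → E) := by
  ext x
  rw [AddMonoidHom.mem_ker]
  constructor
  · intro h
    rw [AddCommGroup.mem_torsion]
    refine IsOfFinAddOrder.pi fun b => ?_
    have := congrFun h b
    exact (AddCommGroup.mem_torsion _).1 ((QuotientAddGroup.eq_zero_iff _).1 this)
  · intro h
    ext1 b
    change (QuotientAddGroup.mk (x b) : E ⧸ AddCommGroup.torsion E) = 0
    rw [QuotientAddGroup.eq_zero_iff]
    rw [tor_iff] at h ⊢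
    obtain ⟨n, hn, h⟩ := h
    exact ⟨n, hn, by simpa using congrFun h b⟩

/-- the functions modulo the torsion functions -/
noncomputable def redE [Fintype B] : (B → E) ⧸ AddCommGroup.torsion (B → E) ≃+
    (B → E ⧸ AddCommGroup.torsion E) :=
  (QuotientAddGroup.quotientAddEquivOfEq (ker_redf E B).symm).trans
    (QuotientAddGroup.quotientKerEquivOfSurjective (redf E B) (redf_surj E B))

theorem redE_mk [Fintype B] (f : B → E) : redE E B (QuotientAddGroup.mk f) = redf E B f := rfl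

end

theorem map_Qr (E : Type) [AddCommGroup E] (B : Type) [Fintype B] (σ : B → B) (ξ η : E) :
    (Rb (Qr B σ ξ η)).map (redE E B : (B → E) ⧸ AddCommGroup.torsion (B → E) →+
      (B → E ⧸ AddCommGroup.torsion E)) =
    Qr B σ (QuotientAddGroup.mk ξ : E ⧸ AddCommGroup.torsion E) (QuotientAddGroup.mk η) := by
  classical
  unfold Rb Qr
  rw [AddMonoidHom.map_closure, AddMonoidHom.map_closure]
  congr 1
  rw [← Set.range_comp, ← Set.range_comp]
  congr 1
  ext x b
  simp only [Function.comp_apply]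
  change (QuotientAddGroup.mk ((Pi.single x ξ + Pi.single (σ x) η : B → E) b) :
    E ⧸ AddCommGroup.torsion E) = _
  rw [Pi.add_apply, Pi.add_apply, QuotientAddGroup.mk_add]
  congr 1
  · by_cases h : b = x
    · subst h; simp
    · simp [Pi.single_eq_of_ne h]
  · by_cases h : b = σ x
    · subst h; simp
    · simp [Pi.single_eq_of_ne h]

theorem t_split : S_tc → S_ext → S_split := by
  intro htc hext E _ _ ξ η m hm
  obtain ⟨h1, -, -, -, h5, -⟩ := htc
  have : NeZero m := ⟨by omega⟩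
  have : Module.Finite ℤ E := Module.Finite.iff_addGroup_fg.mpr inferInstance
  have : AddGroup.FG (ZMod m → E) := Module.Finite.iff_addGroup_fg.mp inferInstance
  have h6 := hext (ZMod m → E) (Qr (ZMod m) (fun j => j + 1) ξ η)
  have h7 : tc (ZMod m → E) = tc E ^ m := by
    rw [h5, Finset.prod_const, Finset.card_univ, ZMod.card]
  have h8 : tc (((ZMod m → E) ⧸ AddCommGroup.torsion (ZMod m → E)) ⧸
      Rb (Qr (ZMod m) (fun j => j + 1) ξ η)) =
      tm (QuotientAddGroup.mk ξ : E ⧸ AddCommGroup.torsion E) (QuotientAddGroup.mk η) m := by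
    unfold tm
    exact h1 _ _ ⟨QuotientAddGroup.congr _ _ (redE E (ZMod m))
      (map_Qr E (ZMod m) (fun j => j + 1) ξ η)⟩
  rw [h7, h8] at h6
  exact h6

end Pool.Agent.Q96.TG
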