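import Pool.Agent.Q181.TG.Stm4

set_option autoImplicit false

namespace Pool.Agent.Q96.TG

open Pool.Agent.Q181.TG Matrix

theorem tor_iff {E : Type} [AddCommGroup E] (x : E) :
    x ∈ AddCommGroup.torsion E ↔ ∃ n : ℕ, 0 < n ∧ n • x = 0 := by
  rw [AddCommGroup.mem_torsion, isOfFinAddOrder_iff_nsmul_eq_zero]

theorem tc_iso {E E' : Type} [AddCommGroup E] [AddCommGroup E'] (e : E ≃+ E') : tc E = tc E' := by
  unfold tc
  refine Nat.card_congr (Equiv.subtypeEquiv e.toEquiv fun x => ?_)
  change x ∈ AddCommGroup.torsion E ↔ e x ∈ AddCommGroup.torsion E'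
  rw [tor_iff, tor_iff]
  refine exists_congr fun n => and_congr_right fun _ => ?_
  rw [← map_nsmul]
  exact (map_eq_zero_iff e e.injective).symm

theorem fg_of_finite (E : Type) [AddCommGroup E] [Module.Finite ℤ E] : AddGroup.FG E :=
  Module.Finite.iff_addGroup_fg.mp inferInstance

/-- the torsion of a finitely generated group is finite -/
theorem tor_finite (E : Type) [AddCommGroup E] [AddGroup.FG E] :
    Finite (AddCommGroup.torsion E) := by
  have : Module.Finite ℤ E := Module.Finite.iff_addGroup_fg.mpr inferInstance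
  have : IsNoetherian ℤ E := inferInstance
  let N : Submodule ℤ E := (AddCommGroup.torsion E).toIntSubmodule
  have : Module.Finite ℤ N := inferInstance
  have : AddGroup.FG N := Module.Finite.iff_addGroup_fg.mp inferInstance
  have : Finite N := by
    refine AddCommGroup.finite_of_fg_isAddTorsion N ?_
    intro x
    have hx : (x : E) ∈ AddCommGroup.torsion E := x.2
    rw [tor_iff] at hx
    obtain ⟨n, hn, h⟩ := hx
    rw [isOfFinAddOrder_iff_nsmul_eq_zero]
    exact ⟨n, hn, Subtype.ext (by simpa using h)⟩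
  exact this

theorem one_le_tc (E : Type) [AddCommGroup E] [AddGroup.FG E] : 1 ≤ tc E := by
  have := tor_finite E
  exact Nat.card_pos

theorem tc_pi {B : Type} [Fintype B] (E : B → Type) [∀ b, AddCommGroup (E b)] :
    tc (∀ b, E b) = ∏ b, tc (E b) := by
  unfold tc
  rw [← Nat.card_pi]
  refine Nat.card_congr ?_
  refine (Equiv.subtypeEquiv (Equiv.refl _) fun x => ?_).trans
    (Equiv.subtypePiEquivPi (p := fun {b} (x : E b) => x ∈ AddCommGroup.torsion (E b)))
  change x ∈ AddCommGroup.torsion _ ↔ ∀ b, x b ∈ AddCommGroup.torsion (E b)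
  constructor
  · intro h b
    rw [tor_iff] at h ⊢
    obtain ⟨n, hn, h⟩ := h
    exact ⟨n, hn, by simpa using congrFun h b⟩
  · intro h
    rw [AddCommGroup.mem_torsion]
    exact IsOfFinAddOrder.pi fun b => (AddCommGroup.mem_torsion _).1 (h b)

/-- permutations of the rows and columns -/
noncomputable def cokEquiv {α β α' β' : Type} (e : α' ≃ α) (f : β' ≃ β) (M : Matrix α β ℤ) :
    Cok (M.submatrix e f) ≃ₗ[ℤ] Cok M :=
  Submodule.Quotient.equiv _ _ (LinearEquiv.funCongrLeft ℤ ℤ f).symm (by
    rw [← Submodule.span_image]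
    congr 1
    ext g
    simp only [Set.mem_image, Set.mem_range, exists_exists_eq_and]
    constructor
    · rintro ⟨a, rfl⟩
      refine ⟨e a, ?_⟩
      ext b
      simp [LinearEquiv.funCongrLeft, LinearMap.funLeft]
    · rintro ⟨a, rfl⟩
      refine ⟨e.symm a, ?_⟩
      ext b
      simp [LinearEquiv.funCongrLeft, LinearMap.funLeft])

theorem t_tc : S_tc := by
  refine ⟨?_, ?_, ?_, ?_, ?_, ?_⟩
  · rintro E E' _ _ ⟨e⟩
    exact tc_iso e
  · intro E _ _
    exact one_le_tc E
  · intro α β _ M
    have : AddGroup.FG (Cok M) := Module.Finite.iff_addGroup_fg.mp inferInstance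
    exact one_le_tc _
  · intro X E _ σ _ _ ξ η
    have : Module.Finite ℤ E := Module.Finite.iff_addGroup_fg.mpr inferInstance
    have : AddGroup.FG (X → E) := Module.Finite.iff_addGroup_fg.mp inferInstance
    have : AddGroup.FG (Qt X σ ξ η) :=
      AddGroup.fg_of_surjective (f := QuotientAddGroup.mk' (Qr X σ ξ η))
        (QuotientAddGroup.mk'_surjective _)
    exact one_le_tc _
  · intro B _ E _
    exact tc_pi E
  · intro α β α' β' e f M
    exact tc_iso (cokEquiv e f M).toAddEquiv

end Pool.Agent.Q96.TG
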