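import Pool.Agent.Q181.TG.Stm5

set_option autoImplicit false

namespace Pool.Agent.Q96.TG

open Pool.Agent.Q181.TG Matrix

theorem card_cok {α : Type} [Fintype α] [DecidableEq α] (M : Matrix α α ℤ) (h : M.det ≠ 0) :
    Nat.card (Cok M) = M.det.natAbs := by
  have hli : LinearIndependent ℤ M := by
    rw [Fintype.linearIndependent_iff]
    intro g hg
    have : g ᵥ* M = 0 := by
      rw [← hg]
      ext b
      simp [vecMul, dotProduct]
    exact fun i => congrFun (Matrix.eq_zero_of_vecMul_eq_zero h this) i
  have := Submodule.natAbs_det_basis_change (Pi.basisFun ℤ α) (Submodule.span ℤ (Set.range M))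
    (Module.Basis.span hli)
  rw [← this]
  congr 1
  have h2 : (((↑) : Submodule.span ℤ (Set.range M) → (α → ℤ)) ∘ (Module.Basis.span hli)) = M := by
    ext i b
    simp [Module.Basis.span_apply]
  rw [h2, Pi.basisFun_det]
  rfl

theorem tc_of_finite (E : Type) [AddCommGroup E] [Finite E] : tc E = Nat.card E := by
  unfold tc
  refine Nat.card_congr (Equiv.subtypeUnivEquiv fun x => ?_)
  exact isOfFinAddOrder_of_finite x

theorem t_det : S_det := by
  intro α _ _ M h
  have h1 := card_cok M h
  have h2 : Finite (Cok M) := Nat.finite_of_card_ne_zero (by rw [h1]; exact Int.natAbs_ne_zero.2 h)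
  exact ⟨h2, h1, by rw [tc_of_finite, h1]⟩

theorem four_eq {α : Type} [Fintype α] [DecidableEq α] :
    (4 : Matrix α α ℤ) = (4 : ℤ) • (1 : Matrix α α ℤ) := by
  have : ((4 : ℕ) : Matrix α α ℤ) = (4 : ℤ) • (1 : Matrix α α ℤ) := by
    rw [← Matrix.diagonal_natCast', Matrix.smul_one_eq_diagonal]
    rfl
  exact this

theorem t_torus : S_tc → S_torus := by
  intro htc α β _ _ _ _ M h1 h2
  obtain ⟨-, -, -, -, -, h6⟩ := htc
  have hc : Fintype.card α = Fintype.card β := by
    have := Matrix.trace_mul_comm M M.transpose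
    rw [h1, h2] at this
    have e1 : Matrix.trace (4 : Matrix α α ℤ) = 4 * Fintype.card α := by
      rw [four_eq, Matrix.trace_smul, Matrix.trace_one]; simp
    have e2 : Matrix.trace (4 : Matrix β β ℤ) = 4 * Fintype.card β := by
      rw [four_eq, Matrix.trace_smul, Matrix.trace_one]; simp
    rw [e1, e2] at this
    omega
  let e : α ≃ β := Fintype.equivOfCardEq hc
  have h3 : (M.submatrix id e) * (M.submatrix id e).transpose = 4 := by
    rw [Matrix.transpose_submatrix, Matrix.submatrix_mul_equiv, h1]
    simp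
  have h4 : (M.submatrix id e).det ^ 2 = 4 ^ Fintype.card α := by
    have := congrArg Matrix.det h3
    rw [Matrix.det_mul, Matrix.det_transpose] at this
    rw [sq, this]
    rw [four_eq, Matrix.det_smul, Matrix.det_one, mul_one]
  have h5 : (M.submatrix id e).det.natAbs = 2 ^ Fintype.card α := by
    have h6 : (M.submatrix id e).det.natAbs ^ 2 = (2 ^ Fintype.card α) ^ 2 := by
      zify
      rw [sq_abs, h4, ← pow_mul, mul_comm, pow_mul]
      norm_num
    exact Nat.pow_left_injective (n := 2) (by norm_num) h6
  have h7 : (M.submatrix id e).det ≠ 0 := by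
    intro h
    rw [h] at h4
    have : (0 : ℤ) < 4 ^ Fintype.card α := by positivity
    rw [← h4] at this
    norm_num at this
  rw [← h6 α β α α (Equiv.refl α) e M, ← h5]
  exact (t_det α _ h7).2.2

end Pool.Agent.Q96.TG
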